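import Pool.Agent.Q2.PIM.Stm2

/-!
# PIM-SP (helper225): an upper bound for the dimension
-/

set_option autoImplicit false

namespace Pool.Agent.Q225.PIM

open Pool.Agent.Q2.PIM

/-- the complement of the list `N15 ++ C5` -/
def Lt : List Pr := E5 ++ [(0, 0), (1, 1), (2, 2), (3, 3), (4, 4)]

lemma nodup_all : ((N15 ++ C5) ++ Lt).Nodup := by decide

lemma mem_all : ∀ p : Pr, p ∈ (N15 ++ C5) ++ Lt ↔ p ≠ (5, 5) := by decide

lemma prod_mul_y {A : Type} [Ring A] (y : A) (l : List A) (h : ∀ a ∈ l, a * y = 0 ∨ a * y = y) :
    l.prod * y = 0 ∨ l.prod * y = y := by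
  induction l with
  | nil => right; rw [List.prod_nil, one_mul]
  | cons a l ih =>
    rw [List.prod_cons, mul_assoc]
    rcases ih (fun b hb => h b (List.mem_cons_of_mem _ hb)) with h1 | h1
    · left
      rw [h1, mul_zero]
    · rw [h1]
      exact h a List.mem_cons_self

theorem t_SP : S_SP := by
  intro k A _ _ _ x hx y hE hT
  classical
  have hL : W k (((N15 ++ C5) ++ Lt).map fun p => x p.1 p.2) = ⊤ :=
    (hx.pbw _ nodup_all mem_all).2
  set M : List A := (N15 ++ C5).map (fun p => x p.1 p.2) with hM
  let S : Finset A := (M.sublists.toFinset).image (fun l => l.prod * y)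
  have hrange : LinearMap.range (LinearMap.mulRight k y) ≤ Submodule.span k (S : Set A) := by
    rintro _ ⟨a, rfl⟩
    have ha : a ∈ W k (((N15 ++ C5) ++ Lt).map fun p => x p.1 p.2) := by
      rw [hL]
      exact Submodule.mem_top
    unfold W at ha
    rw [LinearMap.mulRight_apply]
    induction ha using Submodule.span_induction with
    | mem a ha =>
      obtain ⟨l, hl, rfl⟩ := ha
      rw [List.map_append, ← hM] at hl
      obtain ⟨l1, l2, rfl, h1, h2⟩ := List.sublist_append_iff.1 hl
      rw [List.prod_append, mul_assoc]
      have h3 : ∀ b ∈ l2, b * y = 0 ∨ b * y = y := by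
        intro b hb
        obtain ⟨p, hp, rfl⟩ := List.mem_map.1 (h2.subset hb)
        rw [Lt, List.mem_append] at hp
        rcases hp with hp | hp
        · exact Or.inl (hE p hp)
        · have h4 : p.1 = p.2 := by
            simp only [List.mem_cons, List.not_mem_nil, or_false] at hp
            rcases hp with rfl | rfl | rfl | rfl | rfl <;> rfl
          have h5 := hT p.1
          rw [← h4]
          exact h5
      rcases prod_mul_y y l2 h3 with h4 | h4
      · rw [h4, mul_zero]
        exact Submodule.zero_mem _
      · rw [h4]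
        apply Submodule.subset_span
        rw [Finset.mem_coe, Finset.mem_image]
        exact ⟨l1, List.mem_toFinset.2 (List.mem_sublists.2 h1), rfl⟩
    | zero => rw [zero_mul]; exact Submodule.zero_mem _
    | add a b _ _ h1 h2 => rw [add_mul]; exact Submodule.add_mem _ h1 h2
    | smul c a _ h1 => rw [smul_mul_assoc]; exact Submodule.smul_mem _ c h1
  have hfin : Module.Finite k (Submodule.span k (S : Set A)) :=
    Module.Finite.span_of_finite k S.finite_toSet
  calc Module.finrank k (LinearMap.range (LinearMap.mulRight k y))
      ≤ Module.finrank k (Submodule.span k (S : Set A)) := Submodule.finrank_mono hrange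
    _ ≤ S.card := finrank_span_finset_le_card S
    _ ≤ (M.sublists.toFinset).card := Finset.card_image_le
    _ ≤ M.sublists.length := List.toFinset_card_le _
    _ = 2 ^ 20 := by
        rw [List.length_sublists, hM, List.length_map]
        rfl

end Pool.Agent.Q225.PIM
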