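import Pool.Agent.Q2.PIM.Stm

/-!
# PIM-CAS (helper225): the Casimir element is central
-/

set_option autoImplicit false

namespace Pool.Agent.Q225.PIM

open Pool.Agent.Q2.PIM

/-- the commutator with `a` in characteristic two -/
def dd {A : Type} [Ring A] (a b : A) : A := a * b + b * a

section
variable {A : Type} [Ring A] {x : Fin 6 → Fin 6 → A}

lemma dd_add (a b c : A) : dd a (b + c) = dd a b + dd a c := by
  unfold dd
  rw [mul_add, add_mul]
  abel

lemma dd_zero (a : A) : dd a 0 = 0 := by simp [dd]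

lemma dd_mul (h : Rel6 x) (a b c : A) : dd a (b * c) = dd a b * c + b * dd a c := by
  unfold dd
  have h1 := h.two (b * a * c)
  have h2 : (a * b + b * a) * c + b * (a * c + c * a) =
      a * (b * c) + b * c * a + (b * a * c + b * a * c) := by
    noncomm_ring
  rw [h2, h1, add_zero]

lemma dd_x (h : Rel6 x) (r s i j : Fin 6) : dd (x r s) (x i j) =
    (if s = i then x r j else 0) + (if j = r then x i s else 0) := h.comm r s i j

lemma ord (h : Rel6 x) (i j r s : Fin 6) (_ : 6 * (r : ℕ) + s < 6 * (i : ℕ) + j) :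
    x i j * x r s = x r s * x i j + ((if j = r then x i s else 0) + (if s = i then x r j else 0)) := by
  rw [← h.comm i j r s]
  have h1 := h.two (x r s * x i j)
  calc x i j * x r s = x i j * x r s + (x r s * x i j + x r s * x i j) := by rw [h1, add_zero]
    _ = _ := by abel

lemma two_z (h : Rel6 x) (a : A) : (2 : ℤ) • a = 0 := by
  rw [two_zsmul]
  exact h.two a

lemma two_n (h : Rel6 x) (a : A) : (2 : ℕ) • a = 0 := by
  rw [two_nsmul]
  exact h.two a

end

lemma evz {A : Type} [Ring A] {x : Fin 6 → Fin 6 → A} (h : Rel6 x) (n : ℤ) (a : A) :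
    (2 * n) • a = 0 := by
  rw [mul_comm, mul_smul, two_z h, smul_zero]

lemma cas_comm (A : Type) [Ring A] (x : Fin 6 → Fin 6 → A) (h : Rel6 x) (r s : Fin 6) :
    dd (x r s) (cas x) = 0 := by
  have h2 := two_z h
  have h4 : ∀ a : A, (4 : ℤ) • a = 0 := fun a => evz h 2 a
  have h6 : ∀ a : A, (6 : ℤ) • a = 0 := fun a => evz h 3 a
  have h8 : ∀ a : A, (8 : ℤ) • a = 0 := fun a => evz h 4 a
  have h10 : ∀ a : A, (10 : ℤ) • a = 0 := fun a => evz h 5 a
  have h12 : ∀ a : A, (12 : ℤ) • a = 0 := fun a => evz h 6 a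
  simp only [cas, PP, List.map_cons, List.map_nil, List.sum_cons, List.sum_nil, add_zero, dd_add,
    dd_mul h, dd_x h, mul_add, add_mul]
  fin_cases r <;> fin_cases s <;> simp [ord h] <;> abel_nf <;>
    simp only [h2, h4, h6, h8, h10, h12, add_zero, zero_add]

theorem t_CAS : S_CAS := by
  intro A _ x h i j
  have h1 := cas_comm A x h i j
  unfold dd at h1
  have h2 := h.two (x i j * cas x)
  calc cas x * x i j = cas x * x i j + (x i j * cas x + cas x * x i j) := by rw [h1, add_zero]
    _ = x i j * cas x + (cas x * x i j + cas x * x i j) := by abel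
    _ = x i j * cas x := by rw [h.two, add_zero]

end Pool.Agent.Q225.PIM
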